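import Pool.Agent.Lib.MP_3f2ebd_al.Baer

/-! Bounded right Engel elements of a group with the minimal condition on centralizers. -/

open scoped Pointwise

namespace Pool.Agent.Variants.MP_3f2ebd_al.EngelEquality

universe u

/-- the left-normed commutator `[a, _k x]`, where `[a, x] = a⁻¹ a^x` and `a^x = x⁻¹ a x` -/
def comm {G : Type u} [Group G] (a x : G) : ℕ → G
  | 0 => a
  | k + 1 => (comm a x k)⁻¹ * (x⁻¹ * comm a x k * x)

/-- the right `n`-Engel elements -/
def R (G : Type u) [Group G] (n : ℕ) : Set G := {a | ∀ x : G, comm a x n = 1}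

/-- the bounded right Engel elements -/
def Rbar (G : Type u) [Group G] : Set G := ⋃ n : ℕ, R G n

/-- `A` is a normal subgroup of `B` -/
def NormalIn {G : Type u} [Group G] (A B : Subgroup G) : Prop :=
  A ≤ B ∧ ∀ b ∈ B, ∀ a ∈ A, b⁻¹ * a * b ∈ A

/-- the elements `a` such that, for one `n ≥ 1` and every `x`, there is a chain
`⟨x⟩ = H 0 ⊴ H 1 ⊴ ⋯ ⊴ H n = ⟨x⟩ ⟨a⟩^G` -/
def rhoBar (G : Type u) [Group G] : Set G :=
  {a | ∃ n : ℕ, 1 ≤ n ∧ ∀ x : G, ∃ H : Fin (n + 1) → Subgroup G,
    H 0 = Subgroup.zpowers x ∧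
    (H (Fin.last n) : Set G) =
      (Subgroup.zpowers x : Set G) * (Subgroup.normalClosure ({a} : Set G) : Set G) ∧
    ∀ i : Fin n, NormalIn (H i.castSucc) (H i.succ)}

/-- the minimal condition on centralizers -/
def IsMc (G : Type u) [Group G] : Prop :=
  ∀ X : Set G, ∃ X₀ : Set G, X₀.Finite ∧ X₀ ⊆ X ∧
    Subgroup.centralizer X = Subgroup.centralizer X₀

theorem comm_eq {G : Type u} [Group G] (a x : G) (k : ℕ) :
    comm a x k = (Pool.Agent.Lib.MP_3f2ebd_al.ad x)^[k] a := by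
  induction k with
  | zero => rfl
  | succ k ih => rw [Function.iterate_succ_apply', ← ih]; rfl

theorem rhoBar_subset (G : Type u) [Group G] : rhoBar G ⊆ Rbar G := by
  rintro a ⟨n, -, h⟩
  refine Set.mem_iUnion.2 ⟨n + 1, fun x => ?_⟩
  obtain ⟨H, h0, hn, hs⟩ := h x
  have hx : ∀ i : Fin (n + 1), x ∈ H i := by
    intro i
    induction i using Fin.induction with
    | zero => rw [h0]; exact Subgroup.mem_zpowers x
    | succ i ih => exact (hs i).1 ih
  have key : ∀ k : ℕ, ∀ hk : k ≤ n, comm a x k ∈ H ⟨n - k, by omega⟩ := by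
    intro k
    induction k with
    | zero =>
      intro _
      have ha : a ∈ (H (Fin.last n) : Set G) := by
        rw [hn]
        exact ⟨1, Subgroup.one_mem _, a,
          Subgroup.subset_normalClosure (Set.mem_singleton a), one_mul a⟩
      exact ha
    | succ k ih =>
      intro hk
      have h1 := ih (by omega)
      have e : (⟨n - k, by omega⟩ : Fin (n + 1)) =
          (⟨n - (k + 1), by omega⟩ : Fin n).succ := by
        ext
        simp only [Fin.val_succ]
        omega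
      rw [e] at h1
      have h2 := (hs ⟨n - (k + 1), by omega⟩).2 _ h1 _ (Subgroup.inv_mem _ (hx _))
      have h3 := Subgroup.mul_mem _ h2 (hx (⟨n - (k + 1), by omega⟩ : Fin n).castSucc)
      have e2 : comm a x (k + 1) = (comm a x k)⁻¹ * x⁻¹ * comm a x k * x := by
        simp only [comm, mul_assoc]
      rw [e2]
      exact h3
  have h4 := key n le_rfl
  have e : (⟨n - n, by omega⟩ : Fin (n + 1)) = 0 := by
    ext
    simp
  rw [e, h0] at h4
  obtain ⟨j, hj⟩ := Subgroup.mem_zpowers_iff.1 h4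
  show (comm a x n)⁻¹ * (x⁻¹ * comm a x n * x) = 1
  rw [← hj]
  group

theorem result (G : Type u) [Group G] (hG : IsMc G) : Rbar G = rhoBar G := by
  refine Set.Subset.antisymm ?_ (rhoBar_subset G)
  intro a ha
  obtain ⟨m, hm⟩ := Set.mem_iUnion.1 ha
  have hG' : Pool.Agent.Lib.MP_3f2ebd_al.Mc G := by
    intro X
    obtain ⟨X₀, h1, h2, h3⟩ := hG X
    exact ⟨h1.toFinset, by simpa using h2, by simpa using h3⟩
  obtain ⟨n, hn, h⟩ := Pool.Agent.Lib.MP_3f2ebd_al.main hG' a (m := m) fun x => by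
    rw [← comm_eq]
    exact hm x
  refine ⟨n, hn, fun x => ?_⟩
  obtain ⟨H, h0, h1, h2⟩ := h x
  refine ⟨fun i => H i, h0, ?_, fun i => ⟨(h2 i i.2).1, fun b hb c hc => ?_⟩⟩
  · show ((H n : Subgroup G) : Set G) = _
    rw [h1, Subgroup.mul_normal]
  · have h3 := (Subgroup.normal_subgroupOf_iff_le_normalizer (h2 i i.2).1).1 (h2 i i.2).2
    exact Pool.Agent.Lib.MP_3f2ebd_al.conj_mem_of_nz' (h3 hb) hc

end Pool.Agent.Variants.MP_3f2ebd_al.EngelEquality
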